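import Pool.Agent.G16.Fin
import Pool.Agent.G16.Om
import Pool.Agent.G16.OpG
import Pool.Agent.G16.OpL
import Pool.Agent.G16.Gp
import Pool.Agent.G16.FrcO3

set_option autoImplicit false

namespace Pool.Agent.G16.Kept.ModelOfZFC

open CI Pool.Agent.G16

/-- **A model of ZFC in which the two classes of Q1 differ.** There are a type `M` and a relation
`E` on `M` which satisfy the axioms of ZFC, such that in `(M, E)` some subset `X` of the Cantor
space `P(w)` (`w` is the set of natural numbers of `M`) satisfies `S₁(Ω, 𝒪^{ω-gp})` but not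
`S₁(Ω, Ω)`. -/
theorem result : ∃ (M : Type 1) (E : M → M → Prop), ZFC E ∧ ∃ w X : M, IsOmega E w ∧
    (∀ x, E x X → Sub E x w) ∧ S1 E w (IsOmegaCover E w X) (IsGpCover E w X) ∧
      ¬ S1 E w (IsOmegaCover E w X) (IsOmegaCover E w X) :=
  finalO_of frcO (fun B _ X hD => opI X hD (opGround B) (opL B))
    (fun B _ X hD => om X hD (opI X hD (opGround B) (opL B)))
    (fun B _ X hD => gpSt X hD (opI X hD (opGround B) (opL B)) (om X hD (opI X hD (opGround B) (opL B))))

end Pool.Agent.G16.Kept.ModelOfZFC
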